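import Mathlib

/-!
# Graph classes, speeds and MC-finiteness

The definitions used in the statement for problem MP_337eac_co.  Copies and induced copies are
Mathlib's `SimpleGraph.IsContained` (an injective graph homomorphism exists) and
`SimpleGraph.IsIndContained` (a graph embedding exists).
-/

open scoped BigOperators

namespace Pool.Agent.Lib.MP_337eac_co

/-- A family of finite graphs, given by its members on the vertex sets `Fin n`. -/
abbrev GraphFamily : Type := ∀ n : ℕ, Set (SimpleGraph (Fin n))

/-- The family is a monotone class: it is closed under isomorphism and under taking (not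
necessarily induced) subgraphs.  That is, every graph `H` of which some member `G` contains
a copy is a member. -/
def IsMonotoneClass (C : GraphFamily) : Prop :=
  ∀ (m n : ℕ) (H : SimpleGraph (Fin m)) (G : SimpleGraph (Fin n)),
    G ∈ C n → H.IsContained G → H ∈ C m

/-- The family is a hereditary class: it is closed under isomorphism and under taking induced
subgraphs. -/
def IsHereditaryClass (C : GraphFamily) : Prop :=
  ∀ (m n : ℕ) (H : SimpleGraph (Fin m)) (G : SimpleGraph (Fin n)),
    G ∈ C n → H.IsIndContained G → H ∈ C m

/-- The speed of a class: the number of (labelled) graphs on the vertex set `Fin n` in it. -/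
noncomputable def speed (C : GraphFamily) (n : ℕ) : ℕ := Nat.card (C n)

/-- MC-finiteness: for every modulus `m ≥ 1` the sequence satisfies, from some index `r ≥ 1` on,
a linear recurrence of some order `p ≥ 1` with constant coefficients modulo `m`. -/
def MCFinite (s : ℕ → ℕ) : Prop :=
  ∀ m : ℕ, 1 ≤ m → ∃ r p : ℕ, 1 ≤ r ∧ 1 ≤ p ∧ ∃ α : ℕ → ℤ, ∀ n : ℕ, r ≤ n →
    (s (n + p) : ℤ) ≡ ∑ i ∈ Finset.range p, α i * (s (n + i) : ℤ) [ZMOD (m : ℤ)]

end Pool.Agent.Lib.MP_337eac_co
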