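import Pool.Agent.Lib.MP_337eac_co.Defs

/-!
# A monotone graph class whose speed is not MC-finite

For `t : ℕ` put `r = 2 t + 5` and let `blow t` be the blow-up of the odd cycle `C_r` in which the
vertices are replaced by independent sets of sizes `1, 2, 4, ..., 2 ^ (r - 1)`.  It has
`2 ^ r - 1` vertices and odd girth `r`, and the number of its labelled copies is odd.  For a set
`B` of indices let `cls B` be the class of all graphs that are subgraphs of some `blow s`, where
the graphs isomorphic to `blow s` itself are kept only if `s ∈ B`.  All these classes are monotone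
and their speeds are pairwise different modulo 2, while only countably many sequences modulo 2
satisfy a linear recurrence from some index on.
-/

open scoped BigOperators

namespace Pool.Agent.Lib.MP_337eac_co

open SimpleGraph

/-! ### The graphs -/

/-- Vertex set of the blow-up: block `i` has `2 ^ i` elements. -/
abbrev V (t : ℕ) : Type := Σ i : ZMod (2 * t + 5), ZMod (2 ^ i.val)

instance instNeZeroIdx (t : ℕ) : NeZero (2 * t + 5) := ⟨by omega⟩

instance instNeZeroPow (n : ℕ) : NeZero (2 ^ n) := ⟨by positivity⟩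

instance instFactIdx (t : ℕ) : Fact (1 < 2 * t + 5) := ⟨by omega⟩

/-- The cycle on `ZMod (2 t + 5)`. -/
def cyc (t : ℕ) : SimpleGraph (ZMod (2 * t + 5)) where
  Adj i j := i - j = 1 ∨ j - i = 1
  symm := ⟨fun i j h => h.symm⟩
  loopless := ⟨fun i h => by
    rcases h with h | h <;> simp at h⟩

/-- The blow-up of the odd cycle. -/
def blow (t : ℕ) : SimpleGraph (V t) := (cyc t).comap Sigma.fst

lemma blow_adj {t : ℕ} {x y : V t} :
    (blow t).Adj x y ↔ (x.1 - y.1 = 1 ∨ y.1 - x.1 = 1) := Iff.rfl

lemma sum_zmod_val (r : ℕ) [NeZero r] (f : ℕ → ℕ) :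
    ∑ i : ZMod r, f i.val = ∑ i ∈ Finset.range r, f i := by
  obtain ⟨k, rfl⟩ : ∃ k, r = k + 1 := ⟨r - 1, (Nat.succ_pred_eq_of_ne_zero (NeZero.ne r)).symm⟩
  exact (Finset.sum_range f).symm

lemma card_V (t : ℕ) : Nat.card (V t) = 2 ^ (2 * t + 5) - 1 := by
  rw [Nat.card_eq_fintype_card, Fintype.card_sigma]
  simp only [ZMod.card]
  rw [sum_zmod_val (2 * t + 5) (fun i => 2 ^ i)]
  have := Nat.geomSum_eq (le_refl 2) (2 * t + 5)
  simpa using this

lemma card_V_inj {s t : ℕ} (h : Nat.card (V s) = Nat.card (V t)) : s = t := by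
  rw [card_V, card_V] at h
  have h1 : 0 < 2 ^ (2 * s + 5) := by positivity
  have h2 : 0 < 2 ^ (2 * t + 5) := by positivity
  have h3 : 2 ^ (2 * s + 5) = 2 ^ (2 * t + 5) := by omega
  have := Nat.pow_right_injective (le_refl 2) h3
  omega

/-- If `blow t` maps homomorphically to `blow s` then `s ≤ t`. -/
lemma le_of_contained {s t : ℕ} (h : (blow t).IsContained (blow s)) : s ≤ t := by
  obtain ⟨f⟩ := h
  set h : ZMod (2 * t + 5) → ZMod (2 * s + 5) := fun i => (f ⟨i, 0⟩).1 with hh
  have hadj : ∀ i, h (i + 1) - h i = 1 ∨ h (i + 1) - h i = -1 := by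
    intro i
    have h1 : (blow t).Adj ⟨i + 1, 0⟩ ⟨i, 0⟩ := by
      rw [blow_adj]; left; simp
    have h2 := f.toHom.map_adj h1
    rw [blow_adj] at h2
    rcases h2 with h2 | h2
    · left; exact h2
    · right
      have : h (i + 1) - h i = -(h i - h (i+1)) := by ring
      rw [this]; congr 1
  choose ε hε1 hε2 using (fun i => show ∃ e : ℤ, (e = 1 ∨ e = -1) ∧ ((e : ℤ) : ZMod (2 * s + 5)) = h (i + 1) - h i by
    rcases hadj i with h1 | h1
    · exact ⟨1, Or.inl rfl, by rw [h1]; simp⟩
    · exact ⟨-1, Or.inr rfl, by rw [h1]; simp⟩)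
  have hsum : ((∑ i, ε i : ℤ) : ZMod (2 * s + 5)) = 0 := by
    push_cast
    simp only [hε2]
    rw [Finset.sum_sub_distrib]
    rw [sub_eq_zero]
    exact Fintype.sum_equiv (Equiv.addRight 1) _ _ (fun i => rfl)
  have hdvd : ((2 * s + 5 : ℕ) : ℤ) ∣ ∑ i, ε i := (ZMod.intCast_zmod_eq_zero_iff_dvd _ _).mp hsum
  have hodd : Odd (∑ i, ε i) := by
    have h2 : (2 : ℤ) ∣ ∑ i, (ε i - 1) := by
      apply Finset.dvd_sum
      intro i _
      rcases hε1 i with h1 | h1 <;> rw [h1] <;> decide
    rw [Finset.sum_sub_distrib] at h2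
    simp only [Finset.sum_const, Finset.card_univ, ZMod.card, nsmul_eq_mul, mul_one] at h2
    obtain ⟨c, hc⟩ := h2
    refine ⟨c + t + 2, ?_⟩
    push_cast at hc
    linarith
  have habs : |∑ i, ε i| ≤ (2 * t + 5 : ℕ) := by
    calc |∑ i, ε i| ≤ ∑ i, |ε i| := Finset.abs_sum_le_sum_abs _ _
      _ = ∑ i : ZMod (2 * t + 5), (1 : ℤ) := by
        apply Finset.sum_congr rfl
        intro i _
        rcases hε1 i with h1 | h1 <;> rw [h1] <;> decide
      _ = (2 * t + 5 : ℕ) := by simp
  have hne : ∑ i, ε i ≠ 0 := by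
    intro h0
    rw [h0] at hodd
    exact absurd hodd (by decide)
  have := Int.le_of_dvd (abs_pos.mpr hne) ((dvd_abs _ _).mpr hdvd)
  have h5 : ((2 * s + 5 : ℕ) : ℤ) ≤ ((2 * t + 5 : ℕ) : ℤ) := this.trans habs
  have h6 := Int.ofNat_le.mp h5
  omega

lemma card_le_of_contained {α β : Type*} [Finite β] {G : SimpleGraph α} {H : SimpleGraph β}
    (h : G.IsContained H) : Nat.card α ≤ Nat.card β := by
  obtain ⟨f⟩ := h
  exact Nat.card_le_card_of_injective f f.injective

lemma eq_of_contained {s t : ℕ} (h : (blow t).IsContained (blow s)) : t = s := by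
  have h1 := le_of_contained h
  have h2 := card_le_of_contained h
  rw [card_V, card_V] at h2
  have h3 : 0 < 2 ^ (2 * s + 5) := by positivity
  have h4 : 2 ^ (2 * t + 5) ≤ 2 ^ (2 * s + 5) := by omega
  have h5 := (Nat.pow_le_pow_iff_right (by norm_num : 1 < 2)).mp h4
  omega

/-- Two finite graphs containing copies of one another are isomorphic. -/
lemma iso_of_contained {α β : Type*} [Finite α] [Finite β] {G : SimpleGraph α} {H : SimpleGraph β}
    (h1 : G.IsContained H) (h2 : H.IsContained G) : Nonempty (G ≃g H) := by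
  obtain ⟨f⟩ := h1
  obtain ⟨g⟩ := h2
  have hcard : Nat.card α = Nat.card β :=
    le_antisymm (Nat.card_le_card_of_injective f f.injective)
      (Nat.card_le_card_of_injective g g.injective)
  have hf : Function.Bijective f := by
    have := Fintype.ofFinite α
    have := Fintype.ofFinite β
    exact (Fintype.bijective_iff_injective_and_card f).mpr
      ⟨f.injective, by simpa [Nat.card_eq_fintype_card] using hcard⟩
  have hg : Function.Injective g := g.injective
  let e : Equiv.Perm α := Equiv.ofBijective (g ∘ f) (by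
    exact Finite.injective_iff_bijective.mp (hg.comp hf.1))
  have he : ∀ x y, G.Adj x y → G.Adj (e x) (e y) := fun x y h => g.toHom.map_adj (f.toHom.map_adj h)
  have hpow : ∀ (k : ℕ) (x y), G.Adj x y → G.Adj ((e ^ k) x) ((e ^ k) y) := by
    intro k
    induction k with
    | zero => intro x y h; simpa using h
    | succ k ih => intro x y h; rw [pow_succ, Equiv.Perm.mul_apply, Equiv.Perm.mul_apply]; exact ih _ _ (he _ _ h)
  refine ⟨⟨Equiv.ofBijective f hf, ?_⟩⟩
  intro x y
  constructor
  · intro h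
    have h3 : G.Adj (e x) (e y) := g.toHom.map_adj h
    have hpos : 0 < orderOf e := orderOf_pos e
    have h4 := hpow (orderOf e - 1) _ _ h3
    rw [← Equiv.Perm.mul_apply, ← Equiv.Perm.mul_apply, ← pow_succ,
      Nat.sub_add_cancel hpos, pow_orderOf_eq_one] at h4
    simpa using h4
  · intro h
    exact f.toHom.map_adj h


/-! ### Counting labelled copies -/

/-- The group acting by independent translations on the blocks. -/
abbrev P (t : ℕ) : Type := ∀ i : ZMod (2 * t + 5), Multiplicative (ZMod (2 ^ i.val))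

instance actV (t : ℕ) : MulAction (P t) (V t) where
  smul g x := ⟨x.1, (g x.1).toAdd + x.2⟩
  one_smul x := by
    show (⟨x.1, ((1 : P t) x.1).toAdd + x.2⟩ : V t) = x
    simp
  mul_smul g h x := by
    show (⟨x.1, ((g * h) x.1).toAdd + x.2⟩ : V t) = ⟨x.1, (g x.1).toAdd + ((h x.1).toAdd + x.2)⟩
    simp [add_assoc]

lemma smul_fst {t : ℕ} (g : P t) (x : V t) : (g • x).1 = x.1 := rfl

lemma smul_def {t : ℕ} (g : P t) (x : V t) : g • x = ⟨x.1, (g x.1).toAdd + x.2⟩ := rfl

lemma isPGroup_P (t : ℕ) : IsPGroup 2 (P t) := by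
  apply IsPGroup.of_card (n := ∑ i : ZMod (2 * t + 5), i.val)
  rw [Nat.card_pi]
  simp only [Nat.card_eq_fintype_card, Fintype.card_multiplicative, ZMod.card]
  exact Finset.prod_pow_eq_pow_sum _ _ _

/-- Labelled copies of `blow t` on its own vertex set. -/
def Copies (t : ℕ) : Type := {G : SimpleGraph (V t) // Nonempty (G ≃g blow t)}

/-- Relabelling by a group element is an isomorphism. -/
def relabelIso {t : ℕ} (g : P t) (G : SimpleGraph (V t)) :
    (G.comap (fun x => g⁻¹ • x)) ≃g G where
  toEquiv := MulAction.toPerm g⁻¹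
  map_rel_iff' := Iff.rfl

instance actCopies (t : ℕ) : MulAction (P t) (Copies t) where
  smul g G := ⟨G.1.comap (fun x => g⁻¹ • x), G.2.map (fun e => (relabelIso g G.1).trans e)⟩
  one_smul G := by
    apply Subtype.ext
    show G.1.comap (fun x => (1 : P t)⁻¹ • x) = G.1
    ext x y
    simp
  mul_smul g h G := by
    apply Subtype.ext
    show G.1.comap (fun x => (g * h)⁻¹ • x) = (G.1.comap (fun x => h⁻¹ • x)).comap (fun x => g⁻¹ • x)
    ext x y
    simp [mul_smul]

lemma copies_smul_adj {t : ℕ} (g : P t) (G : Copies t) (x y : V t) :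
    (g • G).1.Adj x y ↔ G.1.Adj (g⁻¹ • x) (g⁻¹ • y) := Iff.rfl

/-- Two vertices are twins if they have the same neighbours. -/
def Twin {α : Type*} (G : SimpleGraph α) (x y : α) : Prop := ∀ z, G.Adj x z ↔ G.Adj y z

lemma twin_blow {t : ℕ} {x y : V t} : Twin (blow t) x y ↔ x.1 = y.1 := by
  constructor
  · intro h
    have h1 := (h ⟨x.1 + 1, 0⟩).mp (by rw [blow_adj]; right; simp)
    have h2 := (h ⟨x.1 - 1, 0⟩).mp (by rw [blow_adj]; left; simp)
    rw [blow_adj] at h1 h2
    simp only at h1 h2
    by_contra hne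
    have h3 : y.1 = x.1 + 2 := by
      rcases h1 with h1 | h1
      · linear_combination h1
      · exfalso; apply hne
        linear_combination h1
    have h4 : y.1 = x.1 - 2 := by
      rcases h2 with h2 | h2
      · exfalso; apply hne
        linear_combination -h2
      · linear_combination -h2
    have h5 : ((4 : ℕ) : ZMod (2 * t + 5)) = 0 := by
      have : x.1 + 2 = x.1 - 2 := h3.symm.trans h4
      have h6 : x.1 + 2 - (x.1 - 2) = 0 := by rw [this]; ring
      have h7 : x.1 + 2 - (x.1 - 2) = ((4 : ℕ) : ZMod (2 * t + 5)) := by push_cast; ring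
      rw [← h7, h6]
    rw [ZMod.natCast_eq_zero_iff] at h5
    have := Nat.le_of_dvd (by norm_num) h5
    omega
  · intro h z
    rw [blow_adj, blow_adj, h]

lemma card_block {t : ℕ} (i : ZMod (2 * t + 5)) : Nat.card {x : V t // x.1 = i} = 2 ^ i.val := by
  rw [Nat.card_congr (Equiv.sigmaSubtype i), Nat.card_eq_fintype_card, ZMod.card]

lemma twin_iso {α β : Type*} {G : SimpleGraph α} {H : SimpleGraph β} (φ : G ≃g H) (x y : α) :
    Twin G x y ↔ Twin H (φ x) (φ y) := by
  constructor
  · intro h z
    have := h (φ.symm z)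
    rw [← φ.map_adj_iff, ← φ.map_adj_iff] at this
    simpa using this
  · intro h z
    have := h (φ z)
    rwa [φ.map_adj_iff, φ.map_adj_iff] at this

/-- The only labelled copy of `blow t` invariant under the group is `blow t`. -/
lemma fixed_eq {t : ℕ} (G : SimpleGraph (V t)) (φ : G ≃g blow t)
    (hG : ∀ (g : P t) (x y : V t), G.Adj (g • x) (g • y) ↔ G.Adj x y) : G = blow t := by
  set c : V t → ZMod (2 * t + 5) := fun x => (φ x).1 with hc
  -- twin classes of `G`
  have htw : ∀ x y, Twin G x y ↔ c x = c y := fun x y => (twin_iso φ x y).trans twin_blow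
  -- sizes of the twin classes
  have hsize : ∀ i, Nat.card {x : V t // c x = i} = 2 ^ i.val := by
    intro i
    rw [← card_block i]
    exact Nat.card_congr (φ.toEquiv.subtypeEquiv (fun x => Iff.rfl))
  have hsize' : ∀ x, Nat.card {y : V t // Twin G x y} = 2 ^ (c x).val := by
    intro x
    rw [← hsize (c x)]
    exact Nat.card_congr (Equiv.subtypeEquivRight (fun y => (htw x y).trans eq_comm))
  -- `c` is invariant
  have hinv : ∀ (g : P t) x, c (g • x) = c x := by
    intro g x
    have h1 : Nat.card {y : V t // Twin G (g • x) y} = Nat.card {y : V t // Twin G x y} := by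
      refine (Nat.card_congr ((MulAction.toPerm g).subtypeEquiv (fun y => ?_))).symm
      constructor
      · intro h z
        have := h (g⁻¹ • z)
        rw [← hG g, ← hG g (y) ] at this
        simpa using this
      · intro h z
        have := h (g • z)
        rw [MulAction.toPerm_apply, hG, hG] at this
        exact this
    rw [hsize', hsize'] at h1
    exact ZMod.val_injective _ (Nat.pow_right_injective (le_refl 2) h1)
  -- so `c` factors through the block index
  set γ : ZMod (2 * t + 5) → ZMod (2 * t + 5) := fun i => c ⟨i, 0⟩ with hγ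
  have hcγ : ∀ x, c x = γ x.1 := by
    intro x
    have hx : (Pi.mulSingle x.1 (Multiplicative.ofAdd x.2) : P t) • (⟨x.1, 0⟩ : V t) = x := by
      rw [smul_def]
      simp
    rw [hγ]
    show c x = c ⟨x.1, 0⟩
    rw [← hinv (Pi.mulSingle x.1 (Multiplicative.ofAdd x.2) : P t) ⟨x.1, 0⟩, hx]
  have hle : ∀ j, j.val ≤ (γ j).val := by
    intro j
    have h1 : Nat.card {x : V t // x.1 = j} ≤ Nat.card {x : V t // c x = γ j} := by
      apply Nat.card_le_card_of_injective (fun x => ⟨x.1, by rw [hcγ, x.2]⟩)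
      intro x y hxy
      exact Subtype.ext (by simpa using hxy)
    rw [card_block, hsize] at h1
    exact (Nat.pow_le_pow_iff_right (by norm_num : 1 < 2)).mp h1
  have hsurj : Function.Surjective γ := by
    intro i
    have h1 : 0 < Nat.card {x : V t // c x = i} := by rw [hsize]; positivity
    obtain ⟨x⟩ := (Nat.card_pos_iff.mp h1).1
    exact ⟨x.1.1, by rw [← hcγ, x.2]⟩
  have hbij : Function.Bijective γ := Finite.surjective_iff_bijective.mp hsurj
  have hid : ∀ j, γ j = j := by
    have hsum : ∑ j, (γ j).val = ∑ j : ZMod (2 * t + 5), j.val :=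
      Fintype.sum_bijective γ hbij _ _ (fun j => rfl)
    by_contra hne
    push Not at hne
    obtain ⟨j, hj⟩ := hne
    have hlt : j.val < (γ j).val :=
      lt_of_le_of_ne (hle j) (fun h => hj (ZMod.val_injective _ h.symm))
    have := Finset.sum_lt_sum (s := Finset.univ) (fun j _ => hle j) ⟨j, Finset.mem_univ _, hlt⟩
    omega
  ext x y
  rw [← φ.map_adj_iff, blow_adj, blow_adj]
  have h1 : (φ x).1 = x.1 := by have := hcγ x; rw [hid] at this; exact this
  have h2 : (φ y).1 = y.1 := by have := hcγ y; rw [hid] at this; exact this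
  rw [h1, h2]

lemma blow_inv {t : ℕ} (g : P t) : (blow t).comap (fun x => g • x) = blow t := by
  ext x y
  rfl

instance instFiniteCopies (t : ℕ) : Finite (Copies t) := Subtype.finite

lemma card_copies (t : ℕ) : Nat.card (Copies t) ≡ 1 [MOD 2] := by
  have h1 := (isPGroup_P t).card_modEq_card_fixedPoints (Copies t)
  have h2 : Nat.card (MulAction.fixedPoints (P t) (Copies t)) = 1 := by
    rw [Nat.card_eq_one_iff_unique]
    refine ⟨⟨?_⟩, ⟨⟨⟨blow t, ⟨RelIso.refl _⟩⟩, ?_⟩⟩⟩
    · have key : ∀ G : MulAction.fixedPoints (P t) (Copies t), G.1.1 = blow t := by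
        intro G
        obtain ⟨φ⟩ := G.1.2
        refine fixed_eq G.1.1 φ (fun g x y => ?_)
        have h3 := G.2 g⁻¹
        have h4 := copies_smul_adj g⁻¹ G.1 x y
        rw [inv_inv] at h4
        rw [← h4]
        rw [h3]
      intro G H
      apply Subtype.ext
      apply Subtype.ext
      rw [key G, key H]
    · intro g
      apply Subtype.ext
      exact blow_inv g⁻¹
  rw [h2] at h1
  exact h1

/-! ### The classes -/

/-- The class attached to a set `B` of indices. -/
def cls (B : Set ℕ) : GraphFamily := fun _ =>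
  {G | ∃ s, G.IsContained (blow s) ∧ (s ∉ B → ¬ (blow s).IsContained G)}

lemma cls_monotone (B : Set ℕ) : IsMonotoneClass (cls B) := by
  rintro m n H G ⟨s, h1, h2⟩ hHG
  exact ⟨s, hHG.trans h1, fun hs h => h2 hs (h.trans hHG)⟩

/-- Number of vertices of the `t`-th graph. -/
noncomputable def ord (t : ℕ) : ℕ := Nat.card (V t)

/-- Labelled copies on `Fin (ord t)`. -/
def copiesFin (t : ℕ) : Set (SimpleGraph (Fin (ord t))) := {G | Nonempty (G ≃g blow t)}

/-- A numbering of the vertices. -/
noncomputable def equivV (t : ℕ) : Fin (ord t) ≃ V t := (Finite.equivFin (V t)).symm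

lemma card_copiesFin (t : ℕ) : Nat.card (copiesFin t) = Nat.card (Copies t) := by
  refine Nat.card_congr ((equivV t).simpleGraph.subtypeEquiv (fun G => ?_))
  constructor
  · rintro ⟨e⟩
    exact ⟨(Iso.comap (equivV t).symm G).trans e⟩
  · rintro ⟨e⟩
    exact ⟨(Iso.comap (equivV t).symm G).symm.trans e⟩

lemma cls_eq (B : Set ℕ) (t : ℕ) :
    (cls B (ord t) = cls ∅ (ord t) ∪ {G | t ∈ B ∧ G ∈ copiesFin t}) := by
  ext G
  constructor
  · rintro ⟨s, h1, h2⟩
    by_cases h3 : (blow s).IsContained G
    · right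
      have hs : s ∈ B := by by_contra h; exact h2 h h3
      have h4 := card_le_of_contained h1
      have h5 := card_le_of_contained h3
      have h6 : Nat.card (V s) = Nat.card (V t) := by
        have : Nat.card (Fin (ord t)) = Nat.card (V t) := by simp [ord]
        omega
      have h7 := card_V_inj h6
      subst h7
      exact ⟨hs, iso_of_contained h1 h3⟩
    · left
      exact ⟨s, h1, fun _ => h3⟩
  · rintro (⟨s, h1, h2⟩ | ⟨ht, ⟨e⟩⟩)
    · exact ⟨s, h1, fun _ => h2 (Set.notMem_empty s)⟩
    · exact ⟨t, e.isContained, fun h => absurd ht h⟩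

lemma disj (B : Set ℕ) (t : ℕ) :
    Disjoint (cls ∅ (ord t)) {G | t ∈ B ∧ G ∈ copiesFin t} := by
  rw [Set.disjoint_left]
  rintro G ⟨s, h1, h2⟩ ⟨_, ⟨e⟩⟩
  have h3 : (blow t).IsContained (blow s) := e.isContained'.trans h1
  have h4 := eq_of_contained h3
  subst h4
  exact h2 (Set.notMem_empty _) e.isContained'

lemma speed_parity (B : Set ℕ) (t : ℕ) :
    (speed (cls B) (ord t) : ZMod 2) = (speed (cls ∅) (ord t) : ZMod 2) +
      (have := Classical.propDecidable (t ∈ B); if t ∈ B then 1 else 0) := by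
  unfold speed
  rw [cls_eq B t]
  have h1 : Nat.card ↑(cls ∅ (ord t) ∪ {G | t ∈ B ∧ G ∈ copiesFin t}) =
      Nat.card ↑(cls ∅ (ord t)) + Nat.card ↑{G | t ∈ B ∧ G ∈ copiesFin t} := by
    rw [Nat.card_coe_set_eq, Nat.card_coe_set_eq, Nat.card_coe_set_eq]
    exact Set.ncard_union_eq (disj B t) (Set.toFinite _) (Set.toFinite _)
  rw [h1]
  push_cast
  congr 1
  by_cases ht : t ∈ B
  · simp only [ht, true_and, if_true]
    have h2 : Nat.card ↑{G | G ∈ copiesFin t} = Nat.card (Copies t) := card_copiesFin t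
    rw [h2]
    have h3 := (ZMod.natCast_eq_natCast_iff _ _ _).mpr (card_copies t)
    rw [h3]; simp
  · simp [ht]

lemma parity_injective :
    Function.Injective (fun (B : Set ℕ) (n : ℕ) => (speed (cls B) n : ZMod 2)) := by
  intro B B' h
  ext t
  have h1 := congrFun h (ord t)
  simp only at h1
  rw [speed_parity B t, speed_parity B' t] at h1
  have h2 := add_left_cancel h1
  by_cases hB : t ∈ B <;> by_cases hB' : t ∈ B' <;> simp [hB, hB'] at h2 ⊢

/-- Sequences over `ZMod 2` satisfying a linear recurrence from some point on. -/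
def recSeqs : Set (ℕ → ZMod 2) :=
  {σ | ∃ r p : ℕ, 1 ≤ p ∧ ∃ α : ℕ → ZMod 2, ∀ n, r ≤ n →
    σ (n + p) = ∑ i ∈ Finset.range p, α i * σ (n + i)}

lemma recSeqs_countable : recSeqs.Countable := by
  have h1 : recSeqs ⊆ ⋃ (r : ℕ), ⋃ (p : ℕ), ⋃ (α : Fin p → ZMod 2), ⋃ (i₀ : Fin (r + p) → ZMod 2),
      {σ : ℕ → ZMod 2 | 1 ≤ p ∧ (∀ n, r ≤ n → σ (n + p) = ∑ i : Fin p, α i * σ (n + i)) ∧
        ∀ i : Fin (r + p), σ i = i₀ i} := by
    rintro σ ⟨r, p, hp, α, h⟩
    simp only [Set.mem_iUnion, Set.mem_ofPred_eq]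
    refine ⟨r, p, fun i => α i, fun i => σ i, hp, fun n hn => ?_, fun i => rfl⟩
    rw [h n hn, Finset.sum_range]
  refine Set.Countable.mono h1 ?_
  refine Set.countable_iUnion (fun r => Set.countable_iUnion (fun p => Set.countable_iUnion
    (fun α => Set.countable_iUnion (fun i₀ => ?_))))
  apply Set.Subsingleton.countable
  rintro σ ⟨hp, h2, h3⟩ τ ⟨_, h4, h5⟩
  funext n
  induction n using Nat.strong_induction_on with
  | _ n ih =>
    by_cases hn : n < r + p
    · have := h3 ⟨n, hn⟩
      have h6 := h5 ⟨n, hn⟩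
      simp only at this h6
      rw [this, h6]
    · have h6 := h2 (n - p) (by omega)
      have h7 := h4 (n - p) (by omega)
      rw [Nat.sub_add_cancel (by omega)] at h6 h7
      rw [h6, h7]
      apply Finset.sum_congr rfl
      intro i _
      rw [ih (n - p + i) (by have := i.2; omega)]

lemma hereditary_of_monotone {C : GraphFamily} (h : IsMonotoneClass C) : IsHereditaryClass C :=
  fun m n H G hG hHG => h m n H G hG hHG.isContained

/-- There is a monotone (hence hereditary) class of graphs whose speed is not MC-finite. -/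
theorem exists_monotone_not_mcFinite : ∃ C : GraphFamily,
    IsMonotoneClass C ∧ IsHereditaryClass C ∧ ¬ MCFinite (speed C) := by
  by_contra hcon
  push Not at hcon
  have h1 : ∀ B : Set ℕ, (fun n : ℕ => (speed (cls B) n : ZMod 2)) ∈ recSeqs := by
    intro B
    obtain ⟨r, p, _, hp, α, h⟩ := hcon (cls B) (cls_monotone B)
      (hereditary_of_monotone (cls_monotone B)) 2 (by norm_num)
    refine ⟨r, p, hp, fun i => (α i : ZMod 2), fun n hn => ?_⟩
    have h2 := (ZMod.intCast_eq_intCast_iff _ _ 2).mpr (h n hn)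
    push_cast at h2
    exact h2
  have h2 : Countable (Set ℕ) := by
    have : Countable recSeqs := recSeqs_countable.to_subtype
    exact Function.Injective.countable (f := fun B : Set ℕ => (⟨_, h1 B⟩ : recSeqs))
      (fun B B' h => parity_injective (Subtype.ext_iff.mp h))
  obtain ⟨f, hf⟩ := h2.exists_injective_nat
  exact Function.cantor_injective f hf

end Pool.Agent.Lib.MP_337eac_co
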